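import Pool.Agent.W114.PQ.Stm
import Pool.Agent.H951R4.OD.D2b
import Pool.Agent.H951R4.OD.B6

set_option autoImplicit false

/-!
# Count for given smallest exact primes (task PQ-CA)
-/

namespace Pool.Agent.W298.PQ

open Finset Pool.Agent.W114.PQ
open Pool.Agent.H951R4.OD (ch PI Ex)
open scoped Classical

/-- The sieve condition. -/
noncomputable def hh (D : Dat) (ps : Finset ℕ) (P Pr p n : ℕ) : ℝ :=
  if p ≤ P then (if (p ∣ n ∧ ¬ p ^ 2 ∣ n) then 1 else 0)
  else (if ((∃ r ∈ ps, ch (r : ℤ) p = -1) ∧ D.T p (Pr * n)) ∨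
      (D.β = 1 ∧ p % 4 = 3 ∧ p ∣ n ∧ ¬ p ^ 2 ∣ n) then 1 else 0)

theorem hh01 (D : Dat) (ps : Finset ℕ) (P Pr p n : ℕ) :
    hh D ps P Pr p n = 0 ∨ hh D ps P Pr p n = 1 := by
  unfold hh
  split_ifs <;> simp

theorem per_mul {D : Dat} (hD : Ax D) {q : ℕ} (hq : q.Prime) (a n : ℕ) :
    D.T q (a * (n + q ^ 2)) ↔ D.T q (a * n) := by
  have key : ∀ j n : ℕ, D.T q (n + q ^ 2 * j) ↔ D.T q n := by
    intro j
    induction j with
    | zero => intro n; simp
    | succ j ih =>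
      intro n
      have e : n + q ^ 2 * (j + 1) = (n + q ^ 2 * j) + q ^ 2 := by ring
      rw [e, hD.per q _ hq, ih]
  have e : a * (n + q ^ 2) = a * n + q ^ 2 * a := by ring
  rw [e, key]

theorem hh_per {D : Dat} (hD : Ax D) (ps : Finset ℕ) (P Pr p n : ℕ) (hp : p.Prime) :
    hh D ps P Pr p (n + p ^ 2) = hh D ps P Pr p n := by
  have h1 : p ∣ n + p ^ 2 ↔ p ∣ n := (Nat.dvd_add_left (dvd_pow_self p (by norm_num)))
  have h2 : p ^ 2 ∣ n + p ^ 2 ↔ p ^ 2 ∣ n := (Nat.dvd_add_left (dvd_refl _))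
  unfold hh
  simp only [h1, h2, per_mul hD hp]

theorem mean1 (D : Dat) (ps : Finset ℕ) {P Pr p : ℕ} (hp : p.Prime) (hP : p ≤ P) :
    (∑ n ∈ range (p ^ 2), hh D ps P Pr p n) / (p : ℝ) ^ 2 = 1 / p - 1 / (p : ℝ) ^ 2 := by
  have hp0 : (0 : ℝ) < p := by exact_mod_cast hp.pos
  have e1 : ∀ n ∈ range (p ^ 2), hh D ps P Pr p n =
      (if (p ∣ n ∧ ¬ p ^ 2 ∣ n) then (1 : ℝ) else 0) := by
    intro n _
    simp only [hh, hP, if_true]
  rw [Finset.sum_congr rfl e1, Pool.Agent.H951R4.OD.D2b_cnt1 hp]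
  field_simp

/-- bounds of the mean for the large primes -/
theorem mean2 {D : Dat} (hD : Ax D) (mn : S_MN) (ps : Finset ℕ) {P Pr q : ℕ} (hq : q.Prime)
    (hP : P < q) (hqc : ¬ q ∣ D.c0) (hcop : Nat.Coprime Pr q) :
    (if (∃ r ∈ ps, ch (r : ℤ) q = -1) then D.ρ q / q else 0) +
        (if D.β = 1 ∧ q % 4 = 3 then 1 / (q : ℝ) else 0) - (D.κ + 1) / (q : ℝ) ^ 2 ≤
      (∑ n ∈ range (q ^ 2), hh D ps P Pr q n) / (q : ℝ) ^ 2 ∧
    (∑ n ∈ range (q ^ 2), hh D ps P Pr q n) / (q : ℝ) ^ 2 ≤ (2 * D.κ + 1) / q := by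
  obtain ⟨hdis, hmean⟩ := mn D hD q Pr hq hqc
  have hm := hmean hcop
  have hq0 : (0 : ℝ) < q := by exact_mod_cast hq.pos
  have hq1 : (1 : ℝ) ≤ q := by exact_mod_cast hq.one_lt.le
  have hκ := hD.κ1
  have hρ := hD.rho_up q
  have hP' : ¬ q ≤ P := by omega
  set A : ℝ := (∑ n ∈ range (q ^ 2), (if D.T q (Pr * n) then (1 : ℝ) else 0)) / (q : ℝ) ^ 2 with hA
  have hB : (∑ n ∈ range (q ^ 2), (if (q ∣ n ∧ ¬ q ^ 2 ∣ n) then (1 : ℝ) else 0)) / (q : ℝ) ^ 2 =
      1 / q - 1 / (q : ℝ) ^ 2 := by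
    rw [Pool.Agent.H951R4.OD.D2b_cnt1 hq]
    field_simp
  have hsplit : (∑ n ∈ range (q ^ 2), hh D ps P Pr q n) / (q : ℝ) ^ 2 =
      (if (∃ r ∈ ps, ch (r : ℤ) q = -1) then A else 0) +
      (if D.β = 1 ∧ q % 4 = 3 then (1 / q - 1 / (q : ℝ) ^ 2) else 0) := by
    have hterm : ∀ n ∈ range (q ^ 2), hh D ps P Pr q n =
        (if (∃ r ∈ ps, ch (r : ℤ) q = -1) then (if D.T q (Pr * n) then (1 : ℝ) else 0) else 0) +
        (if D.β = 1 ∧ q % 4 = 3 then (if (q ∣ n ∧ ¬ q ^ 2 ∣ n) then (1 : ℝ) else 0) else 0) := by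
      intro n _
      unfold hh
      rw [if_neg hP']
      by_cases hT : D.T q (Pr * n)
      · have hnd : ¬ q ∣ n := fun h => hdis _ hT (Dvd.dvd.mul_left h _)
        by_cases hb : ∃ r ∈ ps, ch (r : ℤ) q = -1
        · simp [hT, hnd, hb]
        · simp [hT, hnd, hb]
      · by_cases hb : ∃ r ∈ ps, ch (r : ℤ) q = -1
        · by_cases hg : D.β = 1 ∧ q % 4 = 3
          · simp [hT, hb, hg.1, hg.2]
          · have : ¬ (D.β = 1 ∧ q % 4 = 3 ∧ q ∣ n ∧ ¬ q ^ 2 ∣ n) := fun h => hg ⟨h.1, h.2.1⟩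
            simp only [hT, and_false, false_or, this, if_false, hg, if_true, hb, add_zero]
        · by_cases hg : D.β = 1 ∧ q % 4 = 3
          · simp [hT, hb, hg.1, hg.2]
          · have : ¬ (D.β = 1 ∧ q % 4 = 3 ∧ q ∣ n ∧ ¬ q ^ 2 ∣ n) := fun h => hg ⟨h.1, h.2.1⟩
            simp only [hT, and_false, false_or, this, if_false, hg, hb, add_zero]
    rw [Finset.sum_congr rfl hterm, Finset.sum_add_distrib, add_div]
    congr 1
    · by_cases hb : ∃ r ∈ ps, ch (r : ℤ) q = -1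
      · simp only [hb, if_true, hA]
      · simp only [hb, if_false, Finset.sum_const_zero, zero_div]
    · by_cases hg : D.β = 1 ∧ q % 4 = 3
      · simp only [hg, and_self, if_true]
        exact hB
      · simp only [hg, if_false, Finset.sum_const_zero, zero_div]
  have hsq : (0 : ℝ) < 1 / (q : ℝ) ^ 2 := by positivity
  have hsq' : (1 : ℝ) / (q : ℝ) ^ 2 ≤ 1 / q := by
    apply one_div_le_one_div_of_le hq0
    nlinarith
  have hκs : D.κ / (q : ℝ) ^ 2 = D.κ * (1 / (q : ℝ) ^ 2) := by ring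
  have hκ1s : (D.κ + 1) / (q : ℝ) ^ 2 = D.κ * (1 / (q : ℝ) ^ 2) + 1 / (q : ℝ) ^ 2 := by ring
  have hab := abs_le.1 hm
  have hρq : 0 ≤ D.ρ q / q := div_nonneg hρ.1 hq0.le
  have hρq' : D.ρ q / q ≤ D.κ / q := div_le_div_of_nonneg_right hρ.2 hq0.le
  have hk2 : (2 * D.κ + 1) / (q : ℝ) = D.κ / q + D.κ * (1 / q) + 1 / q := by ring
  have hk3 : D.κ * (1 / (q : ℝ) ^ 2) ≤ D.κ * (1 / q) := mul_le_mul_of_nonneg_left hsq' (by linarith)
  have hk4 : 0 ≤ D.κ * (1 / (q : ℝ) ^ 2) := by positivity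
  have hk5 : 0 ≤ D.κ / (q : ℝ) := by positivity
  have hk6 : 0 ≤ D.κ * (1 / (q : ℝ)) := by positivity
  have hk7 : 0 ≤ (1 : ℝ) / q := by positivity
  rw [hsplit, hκ1s, hk2]
  rw [hκs] at hab
  constructor
  · split_ifs <;> linarith [hab.1, hab.2]
  · split_ifs <;> linarith [hab.1, hab.2]

/-- the elements of the set are sifted -/
theorem sift {D : Dat} (hD : Ax D) (ps : Finset ℕ) (hps : ∀ p ∈ ps, p.Prime) (S1 S2 : Finset ℕ)
    (X y : ℕ) (hS1 : ∀ r ∈ S1, r.Prime ∧ r ≤ ps.sup id ∧ ¬ r ∣ D.c0 ∧ r ∉ ps)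
    (hS2 : ∀ q ∈ S2, q.Prime ∧ y < q ∧ ¬ q ∣ D.c0) (hy : ps.sup id ≤ y) :
    ({n : ℕ | 1 ≤ n ∧ n ≤ X ∧ Pass D n ∧ (∀ p ∈ ps, Ex D.c0 n p) ∧
        ∀ p : ℕ, Ex D.c0 n p → p ≤ ps.sup id → p ∈ ps}.ncard : ℝ) ≤
      ∑ n ∈ Icc 1 (X / ∏ p ∈ ps, p), ∏ p ∈ S1 ∪ S2,
        (1 - hh D ps (ps.sup id) (∏ p ∈ ps, p) p n) := by
  set Pr : ℕ := ∏ p ∈ ps, p with hPr
  set P : ℕ := ps.sup id with hP
  have hleP : ∀ p ∈ ps, p ≤ P := fun p hp => Finset.le_sup (f := id) hp
  have hPr0 : 0 < Pr := Finset.prod_pos fun p hp => (hps p hp).pos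
  set A : Set ℕ := {n : ℕ | 1 ≤ n ∧ n ≤ X ∧ Pass D n ∧ (∀ p ∈ ps, Ex D.c0 n p) ∧
        ∀ p : ℕ, Ex D.c0 n p → p ≤ P → p ∈ ps} with hA
  set F : Finset ℕ := (Icc 1 (X / Pr)).filter (fun m => Pr * m ∈ A) with hF
  have hdiv : ∀ n : ℕ, (∀ p ∈ ps, Ex D.c0 n p) → Pr ∣ n := by
    intro n hn
    rw [hPr]
    apply Finset.prod_primes_dvd
    · intro p hp; exact (hps p hp).prime
    · intro p hp; exact (hn p hp).2.2.1
  have hsub : A ⊆ ((F.image (Pr * ·) : Finset ℕ) : Set ℕ) := by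
    intro n hn
    obtain ⟨m, rfl⟩ := hdiv n hn.2.2.2.1
    simp only [coe_image, Set.mem_image, mem_coe]
    refine ⟨m, ?_, rfl⟩
    rw [hF, mem_filter, mem_Icc]
    refine ⟨⟨?_, ?_⟩, hn⟩
    · rcases Nat.eq_zero_or_pos m with h | h
      · subst h; exact absurd hn.1 (by simp)
      · exact h
    · rw [Nat.le_div_iff_mul_le hPr0, mul_comm]; exact hn.2.1
  have hcard : (A.ncard : ℝ) ≤ F.card := by
    have h1 := Set.ncard_le_ncard hsub (Finset.finite_toSet _)
    rw [Set.ncard_coe_finset] at h1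
    have h2 := h1.trans Finset.card_image_le
    exact_mod_cast h2
  refine hcard.trans ?_
  rw [Finset.card_filter]
  push_cast
  refine Finset.sum_le_sum fun m _ => ?_
  by_cases hm : Pr * m ∈ A
  · rw [if_pos hm]
    apply le_of_eq
    symm
    apply Finset.prod_eq_one
    intro p hp
    have hzero : hh D ps P Pr p m = 0 := by
      rcases mem_union.1 hp with hp | hp
      · obtain ⟨h1, h2, h3, h4⟩ := hS1 p hp
        unfold hh
        rw [if_pos h2, if_neg]
        rintro ⟨h5, h6⟩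
        apply h4
        have hcop : Nat.Coprime Pr p := by
          rw [hPr]
          apply Nat.Coprime.prod_left
          intro q hq
          exact (Nat.coprime_primes (hps q hq) h1).2 (fun hh => h4 (hh ▸ hq))
        refine hm.2.2.2.2 p ⟨h1, h3, dvd_mul_of_dvd_right h5 _, ?_⟩ h2
        intro h7
        apply h6
        exact Nat.Coprime.dvd_of_dvd_mul_left (Nat.Coprime.pow_left 2 hcop.symm) h7
      · obtain ⟨h1, h2, h3⟩ := hS2 p hp
        have hPp : P < p := lt_of_le_of_lt hy h2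
        have hcop : Nat.Coprime Pr p := by
          rw [hPr]
          apply Nat.Coprime.prod_left
          intro q hq
          refine (Nat.coprime_primes (hps q hq) h1).2 (fun hh => ?_)
          have := hleP q hq
          omega
        have hp2 : p ≠ 2 := fun h => h3 (h ▸ hD.two)
        unfold hh
        rw [if_neg (by omega), if_neg]
        rintro (⟨⟨r, hr, h4⟩, h5⟩ | ⟨h4, h5, h6, h7⟩)
        · exact hm.2.2.1.1 r p ((p - 1) / 2) (hm.2.2.2.1 r hr) h1 h3 h5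
            ((Pool.Agent.H951R4.OD.ch_eq_neg_one_iff r p h1 hp2).1 h4)
        · refine hm.2.2.1.2 h4 p ⟨h1, h3, dvd_mul_of_dvd_right h6 _, ?_⟩ h5
          intro h8
          apply h7
          exact Nat.Coprime.dvd_of_dvd_mul_left (Nat.Coprime.pow_left 2 hcop.symm) h8
    rw [hzero, sub_zero]
  · rw [if_neg hm]
    apply Finset.prod_nonneg
    intro p _
    rcases hh01 D ps P Pr p m with h | h <;> rw [h] <;> norm_num

/-- primes `3` modulo `4` -/
theorem three_mod_four (c0 : ℕ) (hc0 : 0 < c0) : ∃ C : ℝ, 0 ≤ C ∧ ∀ y z : ℕ, 2 ≤ y → y ≤ z →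
    1 / 2 * Real.log (Real.log z / Real.log y) - C ≤
      ∑ q ∈ (PI y z).filter (fun q => ¬ q ∣ c0), (if q % 4 = 3 then 1 / (q : ℝ) else 0) := by
  obtain ⟨C1, hC1, h1⟩ := Pool.Agent.H951R4.OD.mert_int
  obtain ⟨C2, hC2, h2⟩ := Pool.Agent.H951R4.OD.char_sum_fixed (-1) (by
    rintro ⟨r, hr⟩
    nlinarith [mul_self_nonneg r])
  refine ⟨C1 + C2 + c0, by positivity, ?_⟩
  intro y z hy hyz
  have h3 := (abs_le.1 (h1 y z hy hyz)).1
  have h4 := (abs_le.1 (h2 y z)).2
  have hpt : ∀ q ∈ PI y z, (if q % 4 = 3 then 1 / (q : ℝ) else 0) =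
      1 / 2 * (1 / (q : ℝ)) - 1 / 2 * (ch (-1) q / q) := by
    intro q hq
    simp only [PI, mem_filter, mem_Ioc] at hq
    have hodd : q % 2 = 1 := by
      rcases hq.2.eq_two_or_odd with h | h
      · omega
      · exact h
    have hch : ch (-1) q = if q % 4 = 3 then -1 else 1 := by
      unfold Pool.Agent.H951R4.OD.ch
      rw [if_pos hodd, jacobiSym.at_neg_one (Nat.odd_iff.2 hodd)]
      have h4 : q % 4 = 1 ∨ q % 4 = 3 := by omega
      rcases h4 with h | h
      · rw [ZMod.χ₄_nat_one_mod_four h]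
        simp [h]
      · rw [ZMod.χ₄_nat_three_mod_four h]
        simp [h]
    rw [hch]
    split_ifs <;> ring
  have hall : 1 / 2 * Real.log (Real.log z / Real.log y) - C1 - C2 ≤
      ∑ q ∈ PI y z, (if q % 4 = 3 then 1 / (q : ℝ) else 0) := by
    rw [Finset.sum_congr rfl hpt, Finset.sum_sub_distrib, ← Finset.mul_sum, ← Finset.mul_sum]
    linarith
  rw [← Finset.sum_filter_add_sum_filter_not (PI y z) (fun q => ¬ q ∣ c0)] at hall
  have h5 : ∑ q ∈ (PI y z).filter (fun q => ¬ ¬ q ∣ c0), (if q % 4 = 3 then 1 / (q : ℝ) else 0) ≤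
      c0 := by
    have h6 : ∀ q ∈ (PI y z).filter (fun q => ¬ ¬ q ∣ c0),
        (if q % 4 = 3 then 1 / (q : ℝ) else 0) ≤ (1 : ℝ) := by
      intro q hq
      simp only [PI, mem_filter, mem_Ioc] at hq
      have : (1 : ℝ) ≤ q := by exact_mod_cast hq.1.2.one_lt.le
      split_ifs
      · rw [div_le_one (by linarith)]
        exact this
      · norm_num
    refine (Finset.sum_le_sum h6).trans ?_
    rw [Finset.sum_const, nsmul_eq_mul, mul_one]
    have h7 : (PI y z).filter (fun q => ¬ ¬ q ∣ c0) ⊆ Ioc 0 c0 := by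
      intro q hq
      simp only [PI, mem_filter, mem_Ioc, not_not] at hq
      rw [mem_Ioc]
      exact ⟨hq.1.2.pos, Nat.le_of_dvd hc0 hq.2⟩
    have h8 := Finset.card_le_card h7
    rw [Nat.card_Ioc] at h8
    exact_mod_cast h8
  linarith

theorem ca (sv : S_SV) (mn : S_MN) (bk : S_BK) : S_CA := by
  intro D hD k hk hDk
  have hκ := hD.κ1
  obtain ⟨Cs, hCs, hsieve⟩ := sv (2 * D.κ + 1) (by linarith)
  obtain ⟨Cb, hCb, hbad⟩ := bk D hD k
  obtain ⟨Ca, hCa, hsmall⟩ := Pool.Agent.H951R4.OD.D2b_small D.c0 hD.c0_pos k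
  obtain ⟨C3, hC3, h3m⟩ := three_mod_four D.c0 hD.c0_pos
  obtain ⟨Cq, hCq, hsq⟩ := Pool.Agent.H951R4.OD.sum_sq_inv
  set K : ℝ := Real.log (2 * Cb) + 2 * k with hK
  have hkr : (1 : ℝ) ≤ k := by exact_mod_cast hk
  have hlogCb : 0 < Real.log (2 * Cb) := Real.log_pos (by linarith)
  have hK1 : 1 ≤ K := by rw [hK]; linarith
  have hlogK : 0 ≤ Real.log K := Real.log_nonneg hK1
  set δ : ℝ := Dk D k with hδ
  set C2 : ℝ := Cb + C3 + (D.κ + 1) * Cq with hC2
  have hC20 : 0 ≤ C2 := by positivity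
  set C' : ℝ := Ca + C2 + δ * Real.log K with hC'
  have hC'0 : 0 ≤ C' := by positivity
  refine ⟨Cs * Real.exp C' + Cs + k + 1, ?_, ?_⟩
  · have : 0 ≤ Cs * Real.exp C' := by positivity
    have hk0 : (0 : ℝ) ≤ k := Nat.cast_nonneg k
    linarith
  intro w z X hw hwz hX ps hpk hps
  have hz : 3 ≤ z := hw.trans hwz
  set Pr : ℕ := ∏ p ∈ ps, p with hPr
  set P : ℕ := ps.sup id with hP
  have hz3 : (3 : ℝ) ≤ z := by exact_mod_cast hz
  have hw3 : (3 : ℝ) ≤ w := by exact_mod_cast hw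
  have hexp1 : Real.exp 1 < 3 := by
    have := Real.exp_one_lt_d9
    linarith
  have hlz : 1 ≤ Real.log z := by
    rw [Real.le_log_iff_exp_le (by linarith)]; linarith
  have hlw : 1 ≤ Real.log w := by
    rw [Real.le_log_iff_exp_le (by linarith)]; linarith
  have hllz : 0 ≤ Real.log (Real.log z) := Real.log_nonneg hlz
  have hne : ps.Nonempty := by
    rw [← Finset.card_pos]; omega
  obtain ⟨P0, hP0, hP0'⟩ := Finset.exists_mem_eq_sup ps hne id
  have hPP0 : P = P0 := hP0'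
  have hPmem : P ∈ ps := by rw [hPP0]; exact hP0
  have hPprime : P.Prime := (hps P hPmem).1
  have hPw : P ≤ w := (hps P hPmem).2
  have hPz : P ≤ z := hPw.trans hwz
  have hleP : ∀ p ∈ ps, p ≤ P := fun p hp => Finset.le_sup (f := id) hp
  have hPr0 : 0 < Pr := Finset.prod_pos fun p hp => (hps p hp).1.pos
  have hPPr : P ≤ Pr := Nat.le_of_dvd hPr0 (Finset.dvd_prod_of_mem _ hPmem)
  have hPrP : Pr ≤ P ^ k := by
    have := Finset.prod_le_pow_card ps (fun p => p) P hleP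
    rw [hpk] at this
    exact this
  have hPrz : Pr ≤ z ^ k := hPrP.trans (Nat.pow_le_pow_left hPz k)
  have hPrr : (1 : ℝ) ≤ Pr := by exact_mod_cast hPr0
  have hprod : (∏ p ∈ ps, (p : ℝ)) = (Pr : ℝ) := by rw [hPr]; push_cast; rfl
  rw [hprod]
  -- sizes
  have hlogPr : Real.log Pr ≤ k * Real.log z := by
    rw [← Real.log_pow]
    apply Real.log_le_log (by linarith)
    exact_mod_cast hPrz
  have hCC : (Cs + k + 1) * (Real.log z * (1 + Real.log (Real.log z))) ≤ Real.log X := by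
    refine le_trans ?_ hX
    rw [mul_assoc]
    apply mul_le_mul_of_nonneg_right _ (by positivity)
    have : 0 ≤ Cs * Real.exp C' := by positivity
    linarith
  have hL1 : Real.log z ≤ Real.log z * (1 + Real.log (Real.log z)) := by nlinarith
  set LL : ℝ := Real.log z * (1 + Real.log (Real.log z)) with hLL
  have hLL1 : 1 ≤ LL := hlz.trans hL1
  have hX0 : 0 < Real.log X := by
    have : 0 < (Cs + k + 1) * LL := by positivity
    linarith
  have hXpos : (1 : ℝ) < X := by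
    by_contra hcon
    push Not at hcon
    have := Real.log_nonpos (Nat.cast_nonneg X) hcon
    linarith
  have hlog2 : Real.log 2 ≤ Real.log z := Real.log_le_log (by norm_num) (by linarith)
  have hXPr : Real.log (2 * Pr) ≤ Real.log X := by
    rw [Real.log_mul (by norm_num) (by linarith)]
    have : (k : ℝ) * Real.log z ≤ k * LL := mul_le_mul_of_nonneg_left hL1 (by linarith)
    nlinarith
  have hXPr' : 2 * (Pr : ℝ) ≤ X := (Real.log_le_log_iff (by linarith) (by linarith)).1 hXPr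
  have hN2 : (X : ℝ) / (2 * Pr) ≤ ((X / Pr : ℕ) : ℝ) := by
    have h1 : (X : ℝ) / Pr < ((X / Pr : ℕ) : ℝ) + 1 := by
      rw [div_lt_iff₀ (by linarith)]
      have := Nat.lt_mul_div_succ X hPr0
      rw [mul_comm]
      exact_mod_cast this
    have h2 : (2 : ℝ) ≤ X / Pr := by
      rw [le_div_iff₀ (by linarith)]; exact hXPr'
    have h3 : (X : ℝ) / (2 * Pr) = (X / Pr) / 2 := by
      field_simp
    rw [h3]
    linarith
  have hNle : ((X / Pr : ℕ) : ℝ) ≤ X / Pr := Nat.cast_div_le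
  have hlogN : Cs * Real.log z * (1 + Real.log (Real.log z)) ≤ Real.log ((X / Pr : ℕ) : ℝ) := by
    have h1 : Real.log ((X : ℝ) / (2 * Pr)) ≤ Real.log ((X / Pr : ℕ) : ℝ) :=
      Real.log_le_log (by positivity) hN2
    rw [Real.log_div (by linarith) (by positivity), Real.log_mul (by norm_num) (by linarith)] at h1
    have : (k : ℝ) * Real.log z ≤ k * LL := mul_le_mul_of_nonneg_left hL1 (by linarith)
    rw [mul_assoc]
    nlinarith
  -- y
  set y : ℕ := ⌈Cb * (Pr : ℝ) ^ 2⌉₊ with hy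
  have hy1 : Cb * (Pr : ℝ) ^ 2 ≤ y := Nat.le_ceil _
  have hy2 : (y : ℝ) < Cb * (Pr : ℝ) ^ 2 + 1 := Nat.ceil_lt_add_one (by positivity)
  have hPy : P ≤ y := by
    have h1 : (P : ℝ) ≤ Pr := by exact_mod_cast hPPr
    have h2 : (P : ℝ) ≤ y := by nlinarith
    exact_mod_cast h2
  have hy3 : 3 ≤ y := by
    have h2 : (3 : ℝ) ≤ y := by nlinarith
    exact_mod_cast h2
  have hyr : (3 : ℝ) ≤ y := by exact_mod_cast hy3
  set P3 : ℝ := ((max P 3 : ℕ) : ℝ) with hP3
  have hP33 : (3 : ℝ) ≤ P3 := by rw [hP3]; exact_mod_cast le_max_right _ _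
  have hP3w : P3 ≤ w := by rw [hP3]; exact_mod_cast max_le hPw hw
  have hlP3 : 1 ≤ Real.log P3 := by
    rw [Real.le_log_iff_exp_le (by linarith)]
    linarith
  have hllP3w : Real.log (Real.log P3) ≤ Real.log (Real.log w) :=
    Real.log_le_log (by linarith) (Real.log_le_log (by linarith) hP3w)
  have hlogy : Real.log y ≤ K * Real.log P3 := by
    have h1 : (y : ℝ) ≤ 2 * Cb * (Pr : ℝ) ^ 2 := by nlinarith
    have h2 : Real.log y ≤ Real.log (2 * Cb * (Pr : ℝ) ^ 2) := Real.log_le_log (by linarith) h1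
    rw [Real.log_mul (by positivity) (by positivity), Real.log_pow] at h2
    have h3 : Real.log Pr ≤ k * Real.log P3 := by
      rw [← Real.log_pow]
      apply Real.log_le_log (by linarith)
      have h4 : (Pr : ℝ) ≤ (P : ℝ) ^ k := by exact_mod_cast hPrP
      refine h4.trans (pow_le_pow_left₀ (Nat.cast_nonneg _) ?_ k)
      rw [hP3]; exact_mod_cast le_max_left _ _
    rw [hK]
    push_cast at h2
    nlinarith
  have hlogy0 : 0 < Real.log y := Real.log_pos (by linarith)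
  have hlly : Real.log (Real.log y) ≤ Real.log K + Real.log (Real.log P3) := by
    rw [← Real.log_mul (by linarith) (by linarith)]
    exact Real.log_le_log hlogy0 hlogy
  have hA0 : 0 ≤ Real.log (Real.log P3) := Real.log_nonneg hlP3
  -- the two sets
  set S1 : Finset ℕ := (PI 0 P).filter (fun r => ¬ r ∣ D.c0 ∧ r ∉ ps) with hS1
  set S2 : Finset ℕ := (PI y z).filter (fun q => ¬ q ∣ D.c0) with hS2
  have hmem1 : ∀ r ∈ S1, r.Prime ∧ r ≤ P ∧ ¬ r ∣ D.c0 ∧ r ∉ ps := by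
    intro r hr
    simp only [hS1, PI, mem_filter, mem_Ioc] at hr
    exact ⟨hr.1.2, hr.1.1.2, hr.2.1, hr.2.2⟩
  have hmem2 : ∀ q ∈ S2, q.Prime ∧ y < q ∧ q ≤ z ∧ ¬ q ∣ D.c0 := by
    intro q hq
    simp only [hS2, PI, mem_filter, mem_Ioc] at hq
    exact ⟨hq.1.2, hq.1.1.1, hq.1.1.2, hq.2⟩
  have hdisj : Disjoint S1 S2 := by
    rw [Finset.disjoint_left]
    intro r h1 h2
    have := (hmem1 r h1).2.1
    have := (hmem2 r h2).2.1
    omega
  have hcop : ∀ q ∈ S2, Nat.Coprime Pr q := by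
    intro q hq
    obtain ⟨h1, h2, -, -⟩ := hmem2 q hq
    rw [hPr]
    apply Nat.Coprime.prod_left
    intro p hp
    refine (Nat.coprime_primes (hps p hp).1 h1).2 (fun hh => ?_)
    have := hleP p hp
    omega
  have hme1 : ∀ r ∈ S1, (∑ n ∈ range (r ^ 2), hh D ps P Pr r n) / (r : ℝ) ^ 2 =
      1 / r - 1 / (r : ℝ) ^ 2 := fun r hr => mean1 D ps (hmem1 r hr).1 (hmem1 r hr).2.1
  have hme2 := fun q (hq : q ∈ S2) => mean2 hD mn ps (P := P) (Pr := Pr) (hmem2 q hq).1 (by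
        have := (hmem2 q hq).2.1
        omega) (hmem2 q hq).2.2.2 (hcop q hq)
  have hs := hsieve z (X / Pr) hz hlogN (S1 ∪ S2) (hh D ps P Pr) (by
      intro p hp
      rcases mem_union.1 hp with hp | hp
      · exact ⟨(hmem1 p hp).1, (hmem1 p hp).2.1.trans hPz⟩
      · exact ⟨(hmem2 p hp).1, (hmem2 p hp).2.2.1⟩) (fun p _ n => hh01 D ps P Pr p n) (by
      intro p hp n
      apply hh_per hD
      rcases mem_union.1 hp with hp | hp
      · exact (hmem1 p hp).1
      · exact (hmem2 p hp).1) (by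
      intro p hp
      rcases mem_union.1 hp with hp | hp
      · rw [hme1 p hp]
        have : (1 : ℝ) / p ≤ (2 * D.κ + 1) / p := by
          apply div_le_div_of_nonneg_right (by linarith) (Nat.cast_nonneg p)
        have : (0 : ℝ) ≤ 1 / (p : ℝ) ^ 2 := by positivity
        linarith
      · exact (hme2 p hp).2)
  have hsift := sift hD ps (fun p hp => (hps p hp).1) S1 S2 X y hmem1
    (fun q hq => ⟨(hmem2 q hq).1, (hmem2 q hq).2.1, (hmem2 q hq).2.2.2⟩) hPy
  refine hsift.trans (hs.trans ?_)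
  rw [Finset.sum_union hdisj, Finset.sum_congr rfl hme1]
  set Sg2 : ℝ := ∑ q ∈ S2, (∑ n ∈ range (q ^ 2), hh D ps P Pr q n) / (q : ℝ) ^ 2 with hSg2
  have h1 := hsmall ps hpk P hPprime.two_le
  -- the lower bound of the sum of the means
  have hlow : δ * Real.log (Real.log z) - (δ - 1) * Real.log (Real.log w) - C' ≤
      ∑ r ∈ S1, (1 / (r : ℝ) - 1 / (r : ℝ) ^ 2) + Sg2 := by
    have hmw : (δ - 1) * Real.log (Real.log P3) ≤ (δ - 1) * Real.log (Real.log w) :=
      mul_le_mul_of_nonneg_left hllP3w (by linarith)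
    rcases Nat.lt_or_ge z y with hzy | hyz
    · have h2 : S2 = ∅ := by
        rw [Finset.eq_empty_iff_forall_notMem]
        intro q hq
        have := (hmem2 q hq).2
        omega
      have h2' : Sg2 = 0 := by rw [hSg2, h2, Finset.sum_empty]
      rw [h2', add_zero]
      have h3 : Real.log (Real.log z) ≤ Real.log (Real.log y) := by
        apply Real.log_le_log (by linarith)
        apply Real.log_le_log (by linarith)
        exact_mod_cast hzy.le
      have h4 : δ * Real.log (Real.log z) ≤ δ * (Real.log K + Real.log (Real.log P3)) :=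
        mul_le_mul_of_nonneg_left (h3.trans hlly) (by linarith)
      rw [hC']
      linarith
    · have h2 := hbad ps hpk (fun p hp => (hps p hp).1) y z (by rw [hprod]; exact hy1) hyz
      have h3 := h3m y z (by omega) hyz
      have h4 := hsq S2
      have hsum : ∑ q ∈ S2, ((if (∃ r ∈ ps, ch (r : ℤ) q = -1) then D.ρ q / q else 0) +
          (if D.β = 1 ∧ q % 4 = 3 then 1 / (q : ℝ) else 0) - (D.κ + 1) / (q : ℝ) ^ 2) ≤ Sg2 :=
        Finset.sum_le_sum fun q hq => (hme2 q hq).1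
      rw [Finset.sum_sub_distrib, Finset.sum_add_distrib] at hsum
      have e1 : ∑ q ∈ S2, (if (∃ r ∈ ps, ch (r : ℤ) q = -1) then D.ρ q / q else 0) =
          ∑ q ∈ (PI y z).filter (fun q => ¬ q ∣ D.c0 ∧ ∃ p ∈ ps, ch (p : ℤ) q = -1),
            D.ρ q / q := by
        rw [← Finset.sum_filter, hS2, Finset.filter_filter]
      have e2 : D.β / 2 * Real.log (Real.log z / Real.log y) - C3 ≤
          ∑ q ∈ S2, (if D.β = 1 ∧ q % 4 = 3 then 1 / (q : ℝ) else 0) := by
        rcases hD.β01 with hβ | hβ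
        · have : ∀ q ∈ S2, (if D.β = 1 ∧ q % 4 = 3 then 1 / (q : ℝ) else 0) = 0 := by
            intro q _
            rw [if_neg]
            rintro ⟨h, -⟩
            rw [hβ] at h
            norm_num at h
          rw [Finset.sum_congr rfl this, Finset.sum_const_zero, hβ]
          linarith
        · have : ∀ q ∈ S2, (if D.β = 1 ∧ q % 4 = 3 then 1 / (q : ℝ) else 0) =
              (if q % 4 = 3 then 1 / (q : ℝ) else 0) := by
            intro q _
            simp only [hβ, true_and]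
          rw [Finset.sum_congr rfl this, hβ]
          linarith
      have e3 : ∑ q ∈ S2, (D.κ + 1) / (q : ℝ) ^ 2 ≤ (D.κ + 1) * Cq := by
        have : ∀ q ∈ S2, (D.κ + 1) / (q : ℝ) ^ 2 = (D.κ + 1) * (1 / (q : ℝ) ^ 2) := by
          intro q _; ring
        rw [Finset.sum_congr rfl this, ← Finset.mul_sum]
        exact mul_le_mul_of_nonneg_left h4 (by linarith)
      rw [← e1] at h2
      have e4 : δ = (D.τ - D.κ / 2 ^ k) + D.β / 2 := by rw [hδ]; unfold Dk; ring
      have e5 : δ * Real.log (Real.log z / Real.log y) - C2 ≤ Sg2 := by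
        rw [e4, hC2]
        linarith
      rw [Real.log_div (by linarith) (by linarith)] at e5
      have h5 : δ * Real.log (Real.log y) ≤ δ * (Real.log K + Real.log (Real.log P3)) :=
        mul_le_mul_of_nonneg_left hlly (by linarith)
      rw [hC']
      linarith
  have hexpo : Real.exp (-(∑ r ∈ S1, (1 / (r : ℝ) - 1 / (r : ℝ) ^ 2) + Sg2)) ≤
      Real.exp C' * ((Real.log w) ^ (δ - 1) * (Real.log z) ^ (-δ)) := by
    rw [Real.rpow_def_of_pos (by linarith), Real.rpow_def_of_pos (by linarith), ← Real.exp_add,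
      ← Real.exp_add]
    apply Real.exp_le_exp.2
    linarith
  have hrp : 0 ≤ (Real.log w) ^ (δ - 1) * (Real.log z) ^ (-δ) := by
    have := Real.rpow_nonneg (show (0 : ℝ) ≤ Real.log w by linarith) (δ - 1)
    have := Real.rpow_nonneg (show (0 : ℝ) ≤ Real.log z by linarith) (-δ)
    positivity
  have hXP0 : (0 : ℝ) ≤ X / Pr := by positivity
  calc Cs * ((X / Pr : ℕ) : ℝ) * Real.exp (-(∑ r ∈ S1, (1 / (r : ℝ) - 1 / (r : ℝ) ^ 2) + Sg2))
      ≤ Cs * (X / Pr) * (Real.exp C' * ((Real.log w) ^ (δ - 1) * (Real.log z) ^ (-δ))) := by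
        gcongr
    _ = (Cs * Real.exp C') * (X / Pr) * ((Real.log w) ^ (δ - 1) * (Real.log z) ^ (-δ)) := by ring
    _ ≤ (Cs * Real.exp C' + Cs + k + 1) * (X / Pr) *
        ((Real.log w) ^ (δ - 1) * (Real.log z) ^ (-δ)) := by
        apply mul_le_mul_of_nonneg_right _ hrp
        apply mul_le_mul_of_nonneg_right _ hXP0
        linarith
    _ = (Cs * Real.exp C' + Cs + k + 1) * (X / Pr) * (Real.log w) ^ (δ - 1) *
        (Real.log z) ^ (-δ) := by ring

end Pool.Agent.W298.PQ
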